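import Pool.Agent.Helper73.DZ.Eta

/-!
NRS: the masses are invariant.
-/

open Finset Filter MeasureTheory Topology
open scoped ComplexConjugate InnerProductSpace BoundedContinuousFunction

namespace Pool.Agent.Helper40.DZ

open Pool.Agent.Helper16.AZ (T E Op mm fc)
open Pool.Agent.Helper16.CZ (Tw Orth Fn)
open UnitAddTorus (mFourier)

namespace H73

variable {r : ℕ}

theorem shift {lev : Fin r → ℕ} {D : Matrix (Fin r) (Fin r) ℤ} {ψ : Fin r → T r → ℝ}
    {S : T r → T r} (hT : Tw lev D ψ S) {l : ℕ} {X : Fin r → ℤ} (hX : ∀ i, l < lev i → X i = 0)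
    {s : T r} (hs : ∀ i, lev i < l → s i = 0) (y : T r) :
    mFourier X (S (y + s)) = mFourier X (S y) * mFourier X s := by
  obtain ⟨-, -, h3, h4, h5, -, -⟩ := hT
  rw [← mF_add]
  show ∏ k, fourier (X k) (S (y + s) k) = ∏ k, fourier (X k) ((S y + s) k)
  refine Finset.prod_congr rfl fun k _ => ?_
  by_cases hk : X k = 0
  · rw [hk]
    simp
  · have hl : lev k ≤ l := by
      by_contra hcon
      exact hk (hX k (by omega))
    have e1 : ψ k (y + s) = ψ k y := by
      refine h3 k _ _ fun j hj => ?_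
      rw [Pi.add_apply, hs j (by omega), add_zero]
    have e2 : ∑ j, D k j • (y + s) j = ∑ j, D k j • y j := by
      refine Finset.sum_congr rfl fun j _ => ?_
      by_cases hj : D k j = 0
      · rw [hj, zero_smul, zero_smul]
      · have := h4 k j hj
        rw [Pi.add_apply, hs j (by omega), add_zero]
    have e3 : S (y + s) k = (S y + s) k := by
      rw [Pi.add_apply, h5, h5, e1, e2, Pi.add_apply]
      abel
    rw [e3]

theorem int_eq {μ ν : Measure (T r)} [IsFiniteMeasure μ] [IsFiniteMeasure ν]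
    (h : ∀ X : Fin r → ℤ, ∫ x, mFourier X x ∂μ = ∫ x, mFourier X x ∂ν) (f : C(T r, ℂ)) :
    ∫ x, f x ∂μ = ∫ x, f x ∂ν := by
  have hi : ∀ (g : C(T r, ℂ)) (ρ : Measure (T r)) [IsFiniteMeasure ρ],
      Integrable (fun x => g x) ρ := by
    intro g ρ _
    exact Integrable.of_bound g.continuous.aestronglyMeasurable ‖g‖
      (Eventually.of_forall fun x => g.norm_coe_le_norm x)
  have h1 : ∀ g ∈ Submodule.span ℂ (Set.range (mFourier (d := Fin r))),
      ∫ x, g x ∂μ = ∫ x, g x ∂ν := by
    intro g hg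
    induction hg using Submodule.span_induction with
    | mem x hx =>
      obtain ⟨X, rfl⟩ := hx
      exact h X
    | zero => simp
    | add x y _ _ hx hy =>
      show ∫ z, (x z + y z) ∂μ = ∫ z, (x z + y z) ∂ν
      rw [integral_add (hi x μ) (hi y μ), integral_add (hi x ν) (hi y ν), hx, hy]
    | smul a x _ hx =>
      show ∫ z, (a * x z) ∂μ = ∫ z, (a * x z) ∂ν
      rw [integral_const_mul, integral_const_mul, hx]
  have h2 : f ∈ closure ((Submodule.span ℂ (Set.range (mFourier (d := Fin r))) :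
      Submodule ℂ C(T r, ℂ)) : Set C(T r, ℂ)) := by
    have := UnitAddTorus.span_mFourier_closure_eq_top (d := Fin r)
    have h3 : f ∈ (Submodule.span ℂ (Set.range (mFourier (d := Fin r)))).topologicalClosure := by
      rw [this]
      trivial
    exact h3
  rw [← sub_eq_zero, ← norm_le_zero_iff]
  refine le_of_forall_pos_le_add fun ε hε => ?_
  obtain ⟨δ, hδ⟩ : ∃ δ : ℝ, δ = ε / (μ.real Set.univ + ν.real Set.univ + 1) := ⟨_, rfl⟩
  have hpos : 0 < μ.real Set.univ + ν.real Set.univ + 1 := by positivity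
  have hδ0 : 0 < δ := by rw [hδ]; positivity
  obtain ⟨g, hg, hfg⟩ := Metric.mem_closure_iff.1 h2 δ hδ0
  have hd : ∀ x, ‖f x - g x‖ ≤ δ := by
    intro x
    have := ContinuousMap.dist_apply_le_dist (f := f) (g := g) x
    rw [dist_eq_norm] at this
    exact this.trans hfg.le
  have e1 : ∀ (ρ : Measure (T r)) [IsFiniteMeasure ρ],
      ‖(∫ x, f x ∂ρ) - ∫ x, g x ∂ρ‖ ≤ δ * ρ.real Set.univ := by
    intro ρ _
    rw [← integral_sub (hi f ρ) (hi g ρ)]
    exact norm_integral_le_of_norm_le_const (Eventually.of_forall hd)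
  have e2 := e1 μ
  have e3 := e1 ν
  have e4 : (∫ x, f x ∂μ) - ∫ x, f x ∂ν =
      ((∫ x, f x ∂μ) - ∫ x, g x ∂μ) - ((∫ x, f x ∂ν) - ∫ x, g x ∂ν) := by
    rw [h1 g hg]
    ring
  rw [e4, zero_add]
  refine (norm_sub_le _ _).trans ?_
  have e5 : δ * (μ.real Set.univ + ν.real Set.univ + 1) = ε := by
    rw [hδ]
    field_simp
  nlinarith

theorem meas_eq {μ ν : Measure (T r)} [IsFiniteMeasure μ] [IsFiniteMeasure ν]
    (h : ∀ X : Fin r → ℤ, ∫ x, mFourier X x ∂μ = ∫ x, mFourier X x ∂ν) : μ = ν := by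
  refine ext_of_forall_integral_eq_of_IsFiniteMeasure fun f => ?_
  have h1 := int_eq h ⟨fun x => ((f x : ℝ) : ℂ), by fun_prop⟩
  have h2 : ∫ x, ((f x : ℝ) : ℂ) ∂μ = ∫ x, ((f x : ℝ) : ℂ) ∂ν := h1
  rw [integral_complex_ofReal, integral_complex_ofReal] at h2
  exact_mod_cast h2

theorem tw_meas {lev : Fin r → ℕ} {D : Matrix (Fin r) (Fin r) ℤ} {ψ : Fin r → T r → ℝ}
    {S : T r → T r} (hT : Tw lev D ψ S) (hS : Continuous S) {q j : ℕ} {η : Measure (T r)}
    [IsProbabilityMeasure η]
    (h1 : ∀ᵐ t ∂η, t ∈ AA lev q j) (h2 : ∀ s ∈ AA lev q j, ∀ f : T r → ℂ, Continuous f →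
      ∫ t, f (t + s) ∂η = ∫ t, f t ∂η) (y : T r) :
    Measure.map (fun t => S (y + t)) η = Measure.map (fun t => S y + t) η := by
  have c1 : Continuous fun t : T r => S (y + t) := hS.comp (by fun_prop)
  have c2 : Continuous fun t : T r => S y + t := by fun_prop
  have i1 : IsProbabilityMeasure (Measure.map (fun t => S (y + t)) η) :=
    Measure.isProbabilityMeasure_map c1.measurable.aemeasurable
  have i2 : IsProbabilityMeasure (Measure.map (fun t => S y + t) η) :=
    Measure.isProbabilityMeasure_map c2.measurable.aemeasurable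
  refine meas_eq fun X => ?_
  have cX : Continuous fun t : T r => mFourier X t := by fun_prop
  rw [integral_map c1.measurable.aemeasurable cX.aestronglyMeasurable,
    integral_map c2.measurable.aemeasurable cX.aestronglyMeasurable]
  rw [eta_gen h1 h2 X (fun t => mFourier X (S (y + t))) (cX.comp c1),
    eta_gen h1 h2 X (fun t => mFourier X (S y + t)) (cX.comp c2)]
  · simp only [add_zero]
  · intro l _ s _ t
    rw [← add_assoc, mF_add]
  · intro l hX s hs t
    show mFourier X (S (y + (t + s))) = _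
    rw [← add_assoc]
    exact shift hT hX hs _

theorem nr_congr {lev : Fin r → ℕ} {q j : ℕ} {F G : T r → ℂ} (h : F =ᵐ[mm r] G) :
    nr lev q j F = nr lev q j G := by
  unfold nr
  have : ∀ X : Fin r → ℤ, fc F X = fc G X := by
    intro X
    unfold fc
    refine integral_congr_ae ?_
    filter_upwards [h] with x hx
    rw [hx]
  simp_rw [this]

theorem nr_inv (hF : ST_FPR) {lev : Fin r → ℕ} {D : Matrix (Fin r) (Fin r) ℤ}
    {ψ : Fin r → T r → ℝ} {S : T r → T r} (hT : Tw lev D ψ S) (hS : Continuous S)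
    (hm : MeasurePreserving S (mm r) (mm r)) (q j : ℕ) (F : T r → ℂ) (hF1 : Measurable F)
    (C : ℝ) (hF2 : ∀ x, ‖F x‖ ≤ C) : nr lev q j (fun x => F (S x)) = nr lev q j F := by
  obtain ⟨η, hη, h1, h2⟩ := exists_eta lev q j
  have m1 : MemLp F 2 (mm r) := MemLp.of_bound hF1.aestronglyMeasurable C
    (Eventually.of_forall hF2)
  have m2 : MemLp (fun x => F (S x)) 2 (mm r) :=
    MemLp.of_bound (hF1.comp hS.measurable).aestronglyMeasurable C
      (Eventually.of_forall fun x => hF2 _)
  have hgen : ∀ (G K : T r × T r → ℂ), Measurable G → Measurable K → (∀ z, ‖G z‖ ≤ C) →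
      (∀ z, ‖K z‖ ≤ C) → Integrable (fun z => G z * conj (K z)) (η.prod (mm r)) := by
    intro G K hG hK hGb hKb
    have hKc : Measurable fun z => conj (K z) := Complex.continuous_conj.measurable.comp hK
    refine Integrable.of_bound (hG.mul hKc).aestronglyMeasurable (C * C)
      (Eventually.of_forall fun z => ?_)
    rw [norm_mul, RCLike.norm_conj]
    exact mul_le_mul (hGb z) (hKb z) (norm_nonneg _) ((norm_nonneg _).trans (hGb z))
  have i1 : Integrable (Function.uncurry fun (t y : T r) => F (S y) * conj (F (S (y + t))))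
      (η.prod (mm r)) := by
    refine hgen (fun z => F (S z.2)) (fun z => F (S (z.2 + z.1))) ?_ ?_ (fun z => hF2 _)
      (fun z => hF2 _)
    · exact hF1.comp (hS.measurable.comp measurable_snd)
    · exact hF1.comp (hS.measurable.comp (measurable_snd.add measurable_fst))
  have i2 : Integrable (Function.uncurry fun (t y : T r) => F y * conj (F (y + t)))
      (η.prod (mm r)) := by
    refine hgen (fun z => F z.2) (fun z => F (z.2 + z.1)) ?_ ?_ (fun z => hF2 _)
      (fun z => hF2 _)
    · exact hF1.comp measurable_snd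
    · exact hF1.comp (measurable_snd.add measurable_fst)
  have key : ((nr lev q j (fun x => F (S x)) : ℝ) : ℂ) = ((nr lev q j F : ℝ) : ℂ) := by
    rw [← nr_eq hF h1 h2 _ m2, ← nr_eq hF h1 h2 F m1]
    rw [integral_integral_swap i1, integral_integral_swap i2]
    have e1 : ∀ y : T r, ∫ t, F (S y) * conj (F (S (y + t))) ∂η =
        F (S y) * conj (∫ t, F (S y + t) ∂η) := by
      intro y
      rw [integral_const_mul, ← integral_conj]
      congr 1
      have c1 : Continuous fun t : T r => S (y + t) := hS.comp (by fun_prop)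
      have c2 : Continuous fun t : T r => S y + t := by fun_prop
      have hc : Measurable fun z => conj (F z) := Complex.continuous_conj.measurable.comp hF1
      have a1 := integral_map (μ := η) c1.measurable.aemeasurable
        (f := fun z => conj (F z)) hc.aestronglyMeasurable
      have a2 := integral_map (μ := η) c2.measurable.aemeasurable
        (f := fun z => conj (F z)) hc.aestronglyMeasurable
      rw [← a1, ← a2, tw_meas hT hS h1 h2 y]
    have e2 : ∀ y : T r, ∫ t, F y * conj (F (y + t)) ∂η =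
        F y * conj (∫ t, F (y + t) ∂η) := by
      intro y
      rw [integral_const_mul, ← integral_conj]
    simp_rw [e1, e2]
    have hH : AEStronglyMeasurable (fun y => F y * conj (∫ t, F (y + t) ∂η)) (mm r) := by
      have := i2.swap.integral_prod_left.aestronglyMeasurable
      refine this.congr (Eventually.of_forall fun y => ?_)
      exact e2 y
    have a3 := integral_map (μ := mm r) hm.measurable.aemeasurable
        (f := fun y => F y * conj (∫ t, F (y + t) ∂η)) (by rw [hm.map_eq]; exact hH)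
    rw [hm.map_eq] at a3
    exact a3.symm
  exact_mod_cast key

end H73

open H73 in
theorem st_NRS (h : ST_FPR) (_ : Pool.Agent.Helper16.CZ.ST_TFD)
    (hmp : Pool.Agent.Helper16.CZ.ST_TMP) : ST_NRS := by
  intro r lev D ψ S hT q j F hS hF
  have hm := hmp r lev D ψ S hT
  obtain ⟨C, hC⟩ := hF.2
  obtain ⟨F1, hF1, hFF1⟩ := hF.aesm
  have h1 : Measurable F1 := hF1.measurable
  obtain ⟨F2, hF2⟩ : ∃ F2 : T r → ℂ, F2 = fun x => if ‖F1 x‖ ≤ C then F1 x else 0 := ⟨_, rfl⟩
  have h2 : Measurable F2 := by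
    rw [hF2]
    exact Measurable.ite (measurableSet_le h1.norm measurable_const) h1 measurable_const
  have h3 : F =ᵐ[mm r] F2 := by
    filter_upwards [hFF1] with x hx
    rw [hF2]
    show F x = if ‖F1 x‖ ≤ C then F1 x else 0
    rw [if_pos (by rw [← hx]; exact hC x), hx]
  have h4 : ∀ x, ‖F2 x‖ ≤ max C 0 := by
    intro x
    rw [hF2]
    show ‖if ‖F1 x‖ ≤ C then F1 x else 0‖ ≤ _
    split_ifs with h
    · exact h.trans (le_max_left _ _)
    · simp
  have h5 : (fun x => F (S x)) =ᵐ[mm r] fun x => F2 (S x) :=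
    hm.quasiMeasurePreserving.ae_eq_comp h3
  rw [nr_congr h5, nr_congr h3]
  exact nr_inv h hT hS hm q j F2 h2 _ h4

end Pool.Agent.Helper40.DZ
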