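import Pool.Agent.Helper73.DZ.Eta

/-!
NRV: the kernel of the masses is positive definite.
-/

open Finset Filter MeasureTheory Topology
open scoped ComplexConjugate InnerProductSpace

namespace Pool.Agent.Helper40.DZ

open Pool.Agent.Helper16.AZ (T E Op mm fc)
open Pool.Agent.Helper16.CZ (Tw Orth Fn)
open UnitAddTorus (mFourier)

namespace H73

variable {r d : ℕ}

/-- the tensor product of a vector and the conjugate of another one -/
noncomputable def tens (u v : E d) : EuclideanSpace ℂ (Fin d × Fin d) :=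
  WithLp.toLp 2 fun ab => u ab.1 * conj (v ab.2)

theorem tens_inner (u v u' v' : E d) :
    (inner ℂ (tens u v) (tens u' v') : ℂ) = inner ℂ u u' * conj (inner ℂ v v' : ℂ) := by
  have e : ∀ a b : E d, (inner ℂ a b : ℂ) = ∑ i, b i * conj (a i) := by
    intro a b
    rw [PiLp.inner_apply]
    rfl
  have e' : ∀ a b : EuclideanSpace ℂ (Fin d × Fin d),
      (inner ℂ a b : ℂ) = ∑ i, b i * conj (a i) := by
    intro a b
    rw [PiLp.inner_apply]
    rfl
  rw [e', e, e, map_sum, Finset.sum_mul_sum, Fintype.sum_prod_type]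
  refine Finset.sum_congr rfl fun a _ => Finset.sum_congr rfl fun b _ => ?_
  show (u' a * conj (v' b)) * conj (u a * conj (v b)) = _
  simp only [map_mul, Complex.conj_conj]
  ring

theorem tens_cont : Continuous fun p : E d × E d => tens p.1 p.2 := by
  unfold tens
  refine (PiLp.continuous_toLp 2 _).comp (continuous_pi fun ab => ?_)
  have h1 : Continuous fun p : E d × E d => p.1 ab.1 := by fun_prop
  have h2 : Continuous fun p : E d × E d => p.2 ab.2 := by fun_prop
  exact h1.mul (Complex.continuous_conj.comp h2)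

theorem tens_norm (u v : E d) : ‖tens u v‖ = ‖u‖ * ‖v‖ := by
  have h := tens_inner u v u v
  have h1 : (inner ℂ (tens u v) (tens u v) : ℂ) = ((‖tens u v‖ ^ 2 : ℝ) : ℂ) := by
    rw [inner_self_eq_norm_sq_to_K]
    norm_cast
  have h2 : (inner ℂ u u : ℂ) = ((‖u‖ ^ 2 : ℝ) : ℂ) := by
    rw [inner_self_eq_norm_sq_to_K]
    norm_cast
  have h3 : (inner ℂ v v : ℂ) = ((‖v‖ ^ 2 : ℝ) : ℂ) := by
    rw [inner_self_eq_norm_sq_to_K]
    norm_cast
  rw [h1, h2, h3, Complex.conj_ofReal] at h
  have h4 : ‖tens u v‖ ^ 2 = ‖u‖ ^ 2 * ‖v‖ ^ 2 := by exact_mod_cast h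
  have h5 : ‖tens u v‖ ^ 2 = (‖u‖ * ‖v‖) ^ 2 := by rw [h4]; ring
  exact (pow_left_inj₀ (norm_nonneg _) (by positivity) (by norm_num)).1 h5

theorem qmp (η : Measure (T r)) [IsProbabilityMeasure η] :
    Measure.QuasiMeasurePreserving (fun z : T r × T r => z.2 + z.1) (η.prod (mm r)) (mm r) := by
  have h1 := (measurePreserving_prod_add (G := T r) η (mm r)).quasiMeasurePreserving
  have h2 : Measure.QuasiMeasurePreserving (Prod.snd : T r × T r → T r) (η.prod (mm r)) (mm r) :=
    Measure.quasiMeasurePreserving_snd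
  have h3 := h2.comp h1
  have h4 : (fun z : T r × T r => z.2 + z.1) =
      (Prod.snd : T r × T r → T r) ∘ fun z : T r × T r => (z.1, z.1 + z.2) := by
    funext z
    exact add_comm _ _
  rw [h4]
  exact h3

end H73

open H73 in
theorem st_NRV (h : ST_FPR) : ST_NRV := by
  intro r d lev q j g hg
  obtain ⟨η, hη, h1, h2⟩ := exists_eta lev q j
  choose C hC using fun k => (hg k).2
  obtain ⟨w, hw⟩ : ∃ w : ℕ → T r × T r → EuclideanSpace ℂ (Fin d × Fin d),
      w = fun k z => tens (g k z.2) (g k (z.2 + z.1)) := ⟨_, rfl⟩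
  have hm : ∀ k, AEStronglyMeasurable (w k) (η.prod (mm r)) := by
    intro k
    rw [hw]
    have e1 : AEStronglyMeasurable (fun z : T r × T r => g k z.2) (η.prod (mm r)) :=
      (hg k).aesm.comp_quasiMeasurePreserving
        (Measure.quasiMeasurePreserving_snd : Measure.QuasiMeasurePreserving
          (Prod.snd : T r × T r → T r) (η.prod (mm r)) (mm r))
    have e2 : AEStronglyMeasurable (fun z : T r × T r => g k (z.2 + z.1)) (η.prod (mm r)) :=
      (hg k).aesm.comp_quasiMeasurePreserving (qmp η)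
    exact tens_cont.comp_aestronglyMeasurable (e1.prodMk e2)
  have hb : ∀ k z, ‖w k z‖ ≤ C k * C k := by
    intro k z
    rw [hw]
    show ‖tens (g k z.2) (g k (z.2 + z.1))‖ ≤ _
    rw [tens_norm]
    exact mul_le_mul (hC k _) (hC k _) (norm_nonneg _) ((norm_nonneg _).trans (hC k z.2))
  have hL : ∀ k, MemLp (w k) 2 (η.prod (mm r)) := fun k =>
    MemLp.of_bound (hm k) (C k * C k) (Eventually.of_forall (hb k))
  refine ⟨Lp (EuclideanSpace ℂ (Fin d × Fin d)) 2 (η.prod (mm r)), inferInstance, inferInstance,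
    inferInstance, fun k => (hL k).toLp, fun k k' => ?_⟩
  have e1 : (inner ℂ (hL k).toLp (hL k').toLp : ℂ) =
      ∫ z, (inner ℂ (w k z) (w k' z) : ℂ) ∂(η.prod (mm r)) := by
    rw [L2.inner_def]
    refine integral_congr_ae ?_
    filter_upwards [(hL k).coeFn_toLp, (hL k').coeFn_toLp] with z hz hz'
    rw [hz, hz']
  have hint : Integrable (fun z => (inner ℂ (w k z) (w k' z) : ℂ)) (η.prod (mm r)) := by
    refine Integrable.of_bound ((hm k).inner (hm k')) (C k * C k * (C k' * C k'))
      (Eventually.of_forall fun z => ?_)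
    refine (norm_inner_le_norm _ _).trans ?_
    exact mul_le_mul (hb k z) (hb k' z) (norm_nonneg _) ((norm_nonneg _).trans (hb k z))
  rw [e1, integral_prod _ hint]
  rw [← nr_eq h h1 h2 (fun y => (inner ℂ (g k y) (g k' y) : ℂ)) (((hg k).inner (hg k')).memLp 2)]
  refine integral_congr_ae (Eventually.of_forall fun t => ?_)
  refine integral_congr_ae (Eventually.of_forall fun y => ?_)
  show (inner ℂ (w k (t, y)) (w k' (t, y)) : ℂ) = _
  rw [hw]
  exact tens_inner _ _ _ _

end Pool.Agent.Helper40.DZ
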