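import Pool.Agent.Helper40.DZ.Stmts

/-!
The Haar measure of the annihilator of the frequencies `BB`.
-/

open Finset Filter MeasureTheory Topology
open scoped ComplexConjugate InnerProductSpace

namespace Pool.Agent.Helper40.DZ

open Pool.Agent.Helper16.AZ (T E Op mm fc)
open Pool.Agent.Helper16.CZ (Tw Orth Fn)
open UnitAddTorus (mFourier)

namespace H73

variable {r : ℕ}

/-- the annihilator of `BB` -/
def AA (lev : Fin r → ℕ) (q j : ℕ) : AddSubgroup (T r) where
  carrier := {t | ∀ i, (lev i < j → t i = 0) ∧ (lev i = j → q • t i = 0)}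
  add_mem' := by
    intro a b ha hb i
    refine ⟨fun h => ?_, fun h => ?_⟩
    · rw [Pi.add_apply, (ha i).1 h, (hb i).1 h, add_zero]
    · rw [Pi.add_apply, smul_add, (ha i).2 h, (hb i).2 h, add_zero]
  zero_mem' := by
    intro i
    simp
  neg_mem' := by
    intro a ha i
    refine ⟨fun h => ?_, fun h => ?_⟩
    · rw [Pi.neg_apply, (ha i).1 h, neg_zero]
    · rw [Pi.neg_apply, smul_neg, (ha i).2 h, neg_zero]

theorem mem_AA {lev : Fin r → ℕ} {q j : ℕ} {t : T r} :
    t ∈ AA lev q j ↔ ∀ i, (lev i < j → t i = 0) ∧ (lev i = j → q • t i = 0) := Iff.rfl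

theorem isClosed_AA (lev : Fin r → ℕ) (q j : ℕ) : IsClosed (AA lev q j : Set (T r)) := by
  have h : (AA lev q j : Set (T r)) =
      ⋂ i, ({t : T r | lev i < j → t i = 0} ∩ {t : T r | lev i = j → q • t i = 0}) := by
    ext t
    simp only [Set.mem_iInter, Set.mem_inter_iff, Set.mem_ofPred_eq, SetLike.mem_coe, mem_AA]
  rw [h]
  refine isClosed_iInter fun i => IsClosed.inter ?_ ?_
  · by_cases hi : lev i < j
    · have : {t : T r | lev i < j → t i = 0} = {t : T r | t i = 0} := by
        ext t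
        simp [hi]
      rw [this]
      exact isClosed_eq (continuous_apply i) continuous_const
    · have : {t : T r | lev i < j → t i = 0} = Set.univ := by
        ext t
        simp [hi]
      rw [this]
      exact isClosed_univ
  · by_cases hi : lev i = j
    · have : {t : T r | lev i = j → q • t i = 0} = {t : T r | q • t i = 0} := by
        ext t
        simp [hi]
      rw [this]
      exact isClosed_eq ((continuous_nsmul q).comp (continuous_apply i)) continuous_const
    · have : {t : T r | lev i = j → q • t i = 0} = Set.univ := by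
        ext t
        simp [hi]
      rw [this]
      exact isClosed_univ

/-- the Haar measure of the annihilator -/
theorem exists_eta (lev : Fin r → ℕ) (q j : ℕ) : ∃ η : Measure (T r), IsProbabilityMeasure η ∧
    (∀ᵐ t ∂η, t ∈ AA lev q j) ∧ ∀ s ∈ AA lev q j, ∀ f : T r → ℂ, Continuous f →
      ∫ t, f (t + s) ∂η = ∫ t, f t ∂η := by
  have hc := isClosed_AA lev q j
  have hcs : CompactSpace (AA lev q j) := isCompact_iff_compactSpace.1 hc.isCompact
  obtain ⟨μ, hμ⟩ : ∃ μ : Measure (AA lev q j), μ = Measure.addHaarMeasure ⊤ := ⟨_, rfl⟩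
  have hinv : μ.IsAddHaarMeasure := by rw [hμ]; infer_instance
  have hp : IsProbabilityMeasure μ := by
    refine ⟨?_⟩
    rw [hμ]
    exact Measure.addHaarMeasure_self
  refine ⟨μ.map Subtype.val, Measure.isProbabilityMeasure_map measurable_subtype_coe.aemeasurable,
    ?_, ?_⟩
  · exact (ae_map_iff (p := fun t => t ∈ AA lev q j) measurable_subtype_coe.aemeasurable
      hc.measurableSet).2 (Eventually.of_forall fun t => t.2)
  · intro s hs f hf
    have hf' : Continuous fun t : T r => f (t + s) := by fun_prop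
    have e1 := integral_map (μ := μ) (φ := Subtype.val) measurable_subtype_coe.aemeasurable
      (f := fun t : T r => f (t + s)) hf'.aestronglyMeasurable
    have e2 := integral_map (μ := μ) (φ := Subtype.val) measurable_subtype_coe.aemeasurable
      (f := f) hf.aestronglyMeasurable
    rw [e1, e2]
    exact integral_add_right_eq_self (μ := μ) (fun t => f t) ⟨s, hs⟩

theorem mF_norm (X : Fin r → ℤ) (t : T r) : ‖mFourier X t‖ = 1 := by
  show ‖∏ k, fourier (X k) (t k)‖ = 1
  rw [norm_prod]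
  refine Finset.prod_eq_one fun k _ => ?_
  rw [fourier_apply]
  exact Circle.norm_coe _

theorem mF_single (X : Fin r → ℤ) (i : Fin r) (a : UnitAddCircle) :
    mFourier X (Pi.single i a) = fourier (X i) a := by
  show ∏ k, fourier (X k) ((Pi.single i a : T r) k) = _
  rw [Finset.prod_eq_single i]
  · rw [Pi.single_eq_same]
  · intro b _ hb
    rw [Pi.single_eq_of_ne hb]
    simp
  · intro h
    exact absurd (Finset.mem_univ i) h

theorem mF_add (X : Fin r → ℤ) (s t : T r) :
    mFourier X (s + t) = mFourier X s * mFourier X t := by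
  show ∏ k, fourier (X k) ((s + t) k) = (∏ k, fourier (X k) (s k)) * ∏ k, fourier (X k) (t k)
  rw [← Finset.prod_mul_distrib]
  refine Finset.prod_congr rfl fun k _ => ?_
  rw [Pi.add_apply, fourier_apply, fourier_apply, fourier_apply, smul_add, AddCircle.toCircle_add]
  simp

theorem fourier_ne_one {n : ℤ} {a : UnitAddCircle} (h : n • a ≠ 0) : fourier n a ≠ (1 : ℂ) := by
  intro h1
  rw [fourier_apply] at h1
  apply h
  apply AddCircle.injective_toCircle one_ne_zero
  rw [AddCircle.toCircle_zero]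
  exact Circle.ext h1

theorem mF_AA {lev : Fin r → ℕ} {q j : ℕ} {t : T r} {X : Fin r → ℤ} (ht : t ∈ AA lev q j)
    (hX : X ∈ BB lev q j) : mFourier X t = 1 := by
  show ∏ k, fourier (X k) (t k) = (1 : ℂ)
  refine Finset.prod_eq_one fun k _ => ?_
  rcases lt_trichotomy (lev k) j with h | h | h
  · rw [(ht k).1 h]
    simp
  · obtain ⟨m, hm⟩ := (hX k).2 h
    rw [hm, fourier_apply, mul_comm, mul_smul]
    have : ((q : ℤ) • t k) = 0 := by
      rw [natCast_zsmul]
      exact (ht k).2 h
    rw [this]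
    simp
  · rw [(hX k).1 h]
    simp

theorem exists_point {lev : Fin r → ℕ} {q j : ℕ} {X : Fin r → ℤ} (hX : X ∉ BB lev q j) :
    ∃ (l : ℕ) (s : T r), s ∈ AA lev q j ∧ (∀ i, l < lev i → X i = 0) ∧
      (∀ i, lev i < l → s i = 0) ∧ mFourier X s ≠ 1 := by
  have hhalf : ∀ n : ℤ, n ≠ 0 → n • (((1 / (2 * n) : ℝ)) : UnitAddCircle) ≠ 0 := by
    intro n hn h
    rw [← AddCircle.coe_zsmul, AddCircle.coe_eq_zero_iff] at h
    obtain ⟨m, hm⟩ := h
    have hn' : (n : ℝ) ≠ 0 := by exact_mod_cast hn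
    have h2 : (n : ℝ) * (1 / (2 * n)) = 1 / 2 := by field_simp
    rw [zsmul_eq_mul, zsmul_eq_mul, h2, mul_one] at hm
    have h3 : (2 * m : ℝ) = 1 := by linarith
    have h4 : (2 * m : ℤ) = 1 := by exact_mod_cast h3
    omega
  by_cases h : ∃ i, j < lev i ∧ X i ≠ 0
  · obtain ⟨i, hi, hXi⟩ := h
    obtain ⟨i0, hi0, hmax⟩ := Finset.exists_max_image (univ.filter fun k => X k ≠ 0) lev
      ⟨i, by simp [hXi]⟩
    have hX0 : X i0 ≠ 0 := (Finset.mem_filter.1 hi0).2
    have hl : j < lev i0 := lt_of_lt_of_le hi (hmax i (by simp [hXi]))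
    refine ⟨lev i0, Pi.single i0 ((1 / (2 * (X i0 : ℝ)) : ℝ) : UnitAddCircle), ?_, ?_, ?_, ?_⟩
    · intro k
      refine ⟨fun hk => ?_, fun hk => ?_⟩
      · rw [Pi.single_eq_of_ne]
        rintro rfl
        omega
      · rw [Pi.single_eq_of_ne, smul_zero]
        rintro rfl
        omega
    · intro k hk
      by_contra hne
      have := hmax k (by simp [hne])
      omega
    · intro k hk
      rw [Pi.single_eq_of_ne]
      rintro rfl
      omega
    · rw [mF_single]
      exact fourier_ne_one (hhalf _ hX0)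
  · push Not at h
    have h2 : ∃ i, lev i = j ∧ ¬ (q : ℤ) ∣ X i := by
      by_contra hcon
      push Not at hcon
      exact hX fun i => ⟨h i, hcon i⟩
    obtain ⟨i0, hi0, hq⟩ := h2
    have hX0 : X i0 ≠ 0 := by
      intro h0
      rw [h0] at hq
      exact hq (dvd_zero _)
    obtain ⟨a, ha1, ha2⟩ : ∃ a : UnitAddCircle, q • a = 0 ∧ X i0 • a ≠ 0 := by
      rcases Nat.eq_zero_or_pos q with rfl | hqp
      · exact ⟨_, zero_smul _ _, hhalf _ hX0⟩
      · have hq' : (q : ℝ) ≠ 0 := by positivity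
        refine ⟨((1 / (q : ℝ) : ℝ) : UnitAddCircle), ?_, ?_⟩
        · rw [← AddCircle.coe_nsmul, AddCircle.coe_eq_zero_iff]
          refine ⟨1, ?_⟩
          rw [one_smul, nsmul_eq_mul]
          field_simp
        · intro h0
          rw [← AddCircle.coe_zsmul, AddCircle.coe_eq_zero_iff] at h0
          obtain ⟨m, hm⟩ := h0
          rw [zsmul_eq_mul, zsmul_eq_mul, mul_one] at hm
          apply hq
          refine ⟨m, ?_⟩
          have : (X i0 : ℝ) = (q : ℝ) * m := by
            rw [hm]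
            field_simp
          exact_mod_cast this
    refine ⟨j, Pi.single i0 a, ?_, h, ?_, ?_⟩
    · intro k
      refine ⟨fun hk => ?_, fun hk => ?_⟩
      · rw [Pi.single_eq_of_ne]
        rintro rfl
        omega
      · by_cases hki : k = i0
        · subst hki
          rw [Pi.single_eq_same]
          exact ha1
        · rw [Pi.single_eq_of_ne hki, smul_zero]
    · intro k hk
      rw [Pi.single_eq_of_ne]
      rintro rfl
      omega
    · rw [mF_single]
      exact fourier_ne_one ha2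

/-- the integral of a function which behaves like a character -/
theorem eta_gen {lev : Fin r → ℕ} {q j : ℕ} {η : Measure (T r)} [IsProbabilityMeasure η]
    (h1 : ∀ᵐ t ∂η, t ∈ AA lev q j) (h2 : ∀ s ∈ AA lev q j, ∀ f : T r → ℂ, Continuous f →
      ∫ t, f (t + s) ∂η = ∫ t, f t ∂η) (X : Fin r → ℤ) (G : T r → ℂ) (hG : Continuous G)
    (h3 : ∀ l : ℕ, (∀ i, l < lev i → X i = 0) → ∀ s : T r, (∀ i, lev i < l → s i = 0) →
      ∀ t, G (t + s) = G t * mFourier X s) :
    ∫ t, G t ∂η = (BB lev q j).indicator (fun _ => G 0) X := by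
  by_cases hX : X ∈ BB lev q j
  · rw [Set.indicator_of_mem hX]
    have : ∀ᵐ t ∂η, G t = G 0 := by
      filter_upwards [h1] with t ht
      have := h3 j (fun i hi => (hX i).1 hi) t (fun i hi => (ht i).1 hi) 0
      rw [zero_add, mF_AA ht hX, mul_one] at this
      exact this
    rw [integral_congr_ae this]
    simp
  · rw [Set.indicator_of_notMem hX]
    obtain ⟨l, s, hs, hXl, hsl, hne⟩ := exists_point hX
    have h4 := h2 s hs G hG
    have h5 : ∀ t, G (t + s) = mFourier X s * G t := by
      intro t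
      rw [h3 l hXl s hsl t, mul_comm]
    simp_rw [h5] at h4
    rw [integral_const_mul] at h4
    have h6 : (mFourier X s - 1) * ∫ t, G t ∂η = 0 := by
      rw [sub_mul, one_mul, h4, sub_self]
    rcases mul_eq_zero.1 h6 with h7 | h7
    · exact absurd (sub_eq_zero.1 h7) hne
    · exact h7

theorem eta_char {lev : Fin r → ℕ} {q j : ℕ} {η : Measure (T r)} [IsProbabilityMeasure η]
    (h1 : ∀ᵐ t ∂η, t ∈ AA lev q j) (h2 : ∀ s ∈ AA lev q j, ∀ f : T r → ℂ, Continuous f →
      ∫ t, f (t + s) ∂η = ∫ t, f t ∂η) (X : Fin r → ℤ) :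
    ∫ t, mFourier X t ∂η = (BB lev q j).indicator (fun _ => (1 : ℂ)) X := by
  rw [eta_gen h1 h2 X (fun t => mFourier X t) (by fun_prop)
    (fun l _ s _ t => mF_add X t s)]
  have : mFourier X (0 : T r) = 1 := by
    show ∏ k, fourier (X k) ((0 : T r) k) = (1 : ℂ)
    simp
  simp only [this]

theorem BB_neg {lev : Fin r → ℕ} {q j : ℕ} {X : Fin r → ℤ} :
    -X ∈ BB lev q j ↔ X ∈ BB lev q j := by
  unfold BB
  simp only [Set.mem_ofPred_eq, Pi.neg_apply, neg_eq_zero, dvd_neg]

/-- the masses as integrals -/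
theorem nr_eq (hF : ST_FPR) {lev : Fin r → ℕ} {q j : ℕ} {η : Measure (T r)}
    [IsProbabilityMeasure η]
    (h1 : ∀ᵐ t ∂η, t ∈ AA lev q j) (h2 : ∀ s ∈ AA lev q j, ∀ f : T r → ℂ, Continuous f →
      ∫ t, f (t + s) ∂η = ∫ t, f t ∂η) (F : T r → ℂ) (h : MemLp F 2 (mm r)) :
    ∫ t, (∫ y, F y * conj (F (y + t)) ∂(mm r)) ∂η = ((nr lev q j F : ℝ) : ℂ) := by
  obtain ⟨hP, hT⟩ := hF r F h
  have e1 : (fun t => ∫ y, F y * conj (F (y + t)) ∂(mm r)) =
      fun t => ∑' X : Fin r → ℤ, ((‖fc F X‖ ^ 2 : ℝ) : ℂ) * mFourier (-X) t := by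
    funext t
    exact (hT t).tsum_eq.symm
  rw [e1]
  have hn : ∀ (X : Fin r → ℤ) (t : T r), ‖((‖fc F X‖ ^ 2 : ℝ) : ℂ) * mFourier (-X) t‖ =
      ‖fc F X‖ ^ 2 := by
    intro X t
    rw [norm_mul, mF_norm, mul_one, Complex.norm_real, Real.norm_of_nonneg (by positivity)]
  have hs := hasSum_integral_of_summable_integral_norm (μ := η)
    (F := fun (X : Fin r → ℤ) (t : T r) => ((‖fc F X‖ ^ 2 : ℝ) : ℂ) * mFourier (-X) t)
    (fun X => (Integrable.of_bound (by fun_prop) 1
      (Eventually.of_forall fun t => (mF_norm (-X) t).le) :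
          Integrable (fun t => mFourier (-X) t) η).const_mul _)
    (by
      simp_rw [hn]
      simpa using hP.summable)
  rw [← hs.tsum_eq]
  unfold nr
  rw [Complex.ofReal_tsum]
  refine tsum_congr fun X => ?_
  rw [integral_const_mul, eta_char h1 h2]
  by_cases hX : X ∈ BB lev q j
  · rw [Set.indicator_of_mem (BB_neg.2 hX), Set.indicator_of_mem hX, mul_one]
  · rw [Set.indicator_of_notMem (fun h => hX (BB_neg.1 h)), Set.indicator_of_notMem hX, mul_zero]
    simp

end H73

end Pool.Agent.Helper40.DZ
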